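import Pool.Agent.Helper84.NX.LFormCore
import Pool.Agent.Helper82.NX.VdC
import Pool.Agent.Helper5.NX.Basic

/-!
# NX-24 : the elimination step and merging
-/

set_option autoImplicit false

open Finset
open scoped BigOperators ComplexConjugate

namespace Pool.Agent.Helper57.NX

theorem lform_step {m N : ℕ} [NeZero N] (S : Sys m) (c : Fin m → ℝ) (M : ℕ) (δ : ℝ) (hδ0 : 0 < δ)
    (hδ1 : δ ≤ 1) (F0 : ZMod N → ℂ) (hF0 : ∀ x, ‖F0 x‖ ≤ 1)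
    (L : List ((ZMod N → ℂ) × Phi m)) (hL : ∀ fp ∈ L, ∀ x, ‖fp.1 x‖ ≤ 1)
    (hM : 16 / δ ^ 2 ≤ M) (hMT : (M : ℝ) ≤ δ ^ 2 * S.T / 64)
    (Bad : Finset ℕ) (hBad : (Bad.card : ℝ) ≤ δ ^ 2 * M / 32) (q : Phi m)
    (h : δ ≤ ‖lform S c F0 L‖) :
    ∃ s : ℕ, 1 ≤ s ∧ s < M ∧ s ∉ Bad ∧
      δ ^ 2 / 4 ≤ ‖lform S c 1 (L.map (fun fp => (fp.1, fp.2 - q)) ++
        L.map (fun fp => ((fun x => conj (fp.1 x)), tau s fp.2 - q)))‖ := by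
  have hv : Pool.Agent.Helper84.NX.VdcStep := by
    intro N _ u T M δ h1 h2 f0 h3 v h4 h5 h6 Bad h7 h8
    exact vdc_step u T M δ h1 h2 f0 h3 v h4 h5 h6 Bad h7 h8
  exact Pool.Agent.Helper84.NX.lform_step_of hv S c M δ hδ0 hδ1 F0 hF0 L hL hM hMT Bad hBad q h

/-- elements with small shifts are merged into the frame function -/
theorem lform_merge {m N : ℕ} [NeZero N] (S : Sys m) (c : Fin m → ℝ) (B E : ℝ)
    (F0 : ZMod N → ℂ) (hF0 : ∀ x, ‖F0 x‖ ≤ 1)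
    (L : List ((ZMod N → ℂ) × Phi m)) (hQ : 1 ≤ S.Q) (hL : ∀ fp ∈ L, Adm B S.Q fp.1)
    (pr : Phi m → Prop) [DecidablePred pr] (hE0 : 0 ≤ E)
    (hE : ∀ fp ∈ L, ¬ pr fp.2 → ∀ k ∈ S.I, |(ev (S.a c) fp.2 k : ℝ)| ≤ E) :
    ‖lform S c F0 L - lform S c
        (fun x => F0 x * ((L.filter (fun fp => ¬ pr fp.2)).map (fun fp => fp.1 x)).prod)
        (L.filter (fun fp => pr fp.2))‖ ≤ L.length * (E * B * (1 / S.Q + 1 / N)) := by
  have hl : Pool.Agent.Helper84.NX.L1Shift := by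
    intro N _ B X f h1 h2 t
    exact TV.l1_shift h1 h2 t
  exact Pool.Agent.Helper84.NX.lform_merge_of hl S c B E F0 hF0 L hQ hL pr hE0 hE

end Pool.Agent.Helper57.NX
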