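import Pool.Agent.Helper57.NX.Defs3

/-!
# NX-24 : the elimination step and merging, with the results of NX-1 and NX-3 as hypotheses
-/

set_option autoImplicit false

open Finset
open scoped BigOperators ComplexConjugate

namespace Pool.Agent.Helper84.NX

open Pool.Agent.Helper57.NX

/-- statement of NX-3 -/
def VdcStep : Prop :=
  ∀ {N : ℕ} [NeZero N] (u T M : ℕ) (δ : ℝ) (_ : 0 < δ) (_ : δ ≤ 1)
    (f0 : ZMod N → ℂ) (_ : ∀ x, ‖f0 x‖ ≤ 1) (v : ℕ → ZMod N → ℂ) (_ : ∀ k x, ‖v k x‖ ≤ 1)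
    (_ : 16 / δ ^ 2 ≤ M) (_ : (M : ℝ) ≤ δ ^ 2 * T / 64)
    (Bad : Finset ℕ) (_ : (Bad.card : ℝ) ≤ δ ^ 2 * M / 32)
    (_ : δ ≤ ‖𝔼 k ∈ Ico u (u + T), 𝔼 x, f0 x * v k x‖),
    ∃ s : ℕ, 1 ≤ s ∧ s < M ∧ s ∉ Bad ∧
      δ ^ 2 / 4 ≤ ‖𝔼 k ∈ Ico u (u + T), 𝔼 x, v k x * conj (v (k + s) x)‖

/-- statement of `TV.l1_shift` -/
def L1Shift : Prop :=
  ∀ {N : ℕ} [NeZero N] {B X : ℝ} {f : ZMod N → ℂ} (_ : TV B X f) (_ : 0 < X) (t : ℤ),
    𝔼 x, ‖f (x + (t : ZMod N)) - f x‖ ≤ |(t : ℝ)| * B * (1 / X + 1 / N)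

lemma ev_sub' {m : ℕ} (a : Fin m → ℕ → ℤ) (p q : Phi m) (k : ℕ) :
    ev a (p - q) k = ev a p k - ev a q k := by
  unfold ev
  exact Finsupp.sum_sub_index fun s n1 n2 => by ring

lemma ev_tau' {m : ℕ} (a : Fin m → ℕ → ℤ) (h : ℕ) (p : Phi m) (k : ℕ) :
    ev a (tau h p) k = ev a p (k + h) := by
  unfold ev tau
  rw [AddMonoidHom.add_apply, AddMonoidHom.id_apply, Finsupp.sum_add_index' (fun _ => by ring)
    (fun _ _ _ => by ring)]
  rw [Finsupp.mapDomain.addMonoidHom_apply, Finsupp.sum_mapDomain_index (fun _ => by ring)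
    (fun _ _ _ => by ring)]
  rw [← Finsupp.sum_add]
  refine Finsupp.sum_congr fun s _ => ?_
  show _ * _ + _ * (dl s.1 (a s.2) (k + h) - dl s.1 (a s.2) k) = _
  ring

lemma expect_shift' {N : ℕ} [NeZero N] (f : ZMod N → ℂ) (t : ZMod N) :
    𝔼 x, f (x + t) = 𝔼 x, f x :=
  Fintype.expect_equiv (Equiv.addRight t) _ _ fun _ => rfl

lemma conj_list_prod {α : Type*} (L : List α) (g : α → ℂ) :
    conj (L.map g).prod = (L.map fun a => conj (g a)).prod := by
  induction L with
  | nil => simp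
  | cons a L ih => simp [ih]

lemma norm_list_prod_le {α : Type*} (L : List α) (g : α → ℂ) (hg : ∀ a ∈ L, ‖g a‖ ≤ 1) :
    ‖(L.map g).prod‖ ≤ 1 := by
  induction L with
  | nil => simp
  | cons a L ih =>
    rw [List.map_cons, List.prod_cons, norm_mul]
    have h1 := hg a (by simp)
    have h2 := ih fun b hb => hg b (by simp [hb])
    calc ‖g a‖ * ‖(L.map g).prod‖ ≤ 1 * 1 := by gcongr
      _ = 1 := one_mul 1

theorem lform_step_of (hvdc : VdcStep) {m N : ℕ} [NeZero N] (S : Sys m) (c : Fin m → ℝ) (M : ℕ)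
    (δ : ℝ) (hδ0 : 0 < δ)
    (hδ1 : δ ≤ 1) (F0 : ZMod N → ℂ) (hF0 : ∀ x, ‖F0 x‖ ≤ 1)
    (L : List ((ZMod N → ℂ) × Phi m)) (hL : ∀ fp ∈ L, ∀ x, ‖fp.1 x‖ ≤ 1)
    (hM : 16 / δ ^ 2 ≤ M) (hMT : (M : ℝ) ≤ δ ^ 2 * S.T / 64)
    (Bad : Finset ℕ) (hBad : (Bad.card : ℝ) ≤ δ ^ 2 * M / 32) (q : Phi m)
    (h : δ ≤ ‖lform S c F0 L‖) :
    ∃ s : ℕ, 1 ≤ s ∧ s < M ∧ s ∉ Bad ∧
      δ ^ 2 / 4 ≤ ‖lform S c 1 (L.map (fun fp => (fp.1, fp.2 - q)) ++
        L.map (fun fp => ((fun x => conj (fp.1 x)), tau s fp.2 - q)))‖ := by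
  set v : ℕ → ZMod N → ℂ := fun k x =>
    (L.map fun fp => fp.1 (x + (ev (S.a c) fp.2 k : ZMod N))).prod with hv
  obtain ⟨s, h1, h2, h3, h4⟩ := hvdc S.u S.T M δ hδ0 hδ1 F0 hF0 v
    (fun k x => norm_list_prod_le _ _ fun fp hfp => hL fp hfp _) hM hMT Bad hBad h
  refine ⟨s, h1, h2, h3, h4.trans (le_of_eq ?_)⟩
  congr 1
  unfold lform
  refine Finset.expect_congr rfl fun k _ => ?_
  rw [← expect_shift' _ (-(ev (S.a c) q k : ZMod N))]
  refine Finset.expect_congr rfl fun x _ => ?_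
  rw [Pi.one_apply, one_mul, List.map_append, List.prod_append, List.map_map, List.map_map, hv]
  simp only [conj_list_prod]
  congr 1
  · refine congrArg List.prod (List.map_congr_left fun fp _ => ?_)
    simp only [Function.comp, ev_sub']
    push_cast
    ring_nf
  · refine congrArg List.prod (List.map_congr_left fun fp _ => ?_)
    simp only [Function.comp, ev_sub', ev_tau']
    congr 2
    push_cast
    ring_nf

lemma telescope {α : Type*} (L : List α) (pr : α → Prop) [DecidablePred pr] (g g0 : α → ℂ)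
    (hg : ∀ a ∈ L, ‖g a‖ ≤ 1) (hg0 : ∀ a ∈ L, ‖g0 a‖ ≤ 1) :
    ‖(L.map g).prod - ((L.filter fun a => ¬ pr a).map g0).prod * ((L.filter fun a => pr a).map g).prod‖
      ≤ (L.map fun a => if pr a then 0 else ‖g a - g0 a‖).sum := by
  induction L with
  | nil => simp
  | cons a L ih =>
    have ih' := ih (fun b hb => hg b (by simp [hb])) (fun b hb => hg0 b (by simp [hb]))
    have hga := hg a (by simp)
    by_cases ha : pr a
    · simp only [List.map_cons, List.prod_cons, List.sum_cons, if_pos ha, zero_add]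
      rw [List.filter_cons_of_neg (by simpa using ha), List.filter_cons_of_pos (by simpa using ha),
        List.map_cons, List.prod_cons]
      calc _ = ‖g a * ((L.map g).prod - ((L.filter fun a => ¬ pr a).map g0).prod *
              ((L.filter fun a => pr a).map g).prod)‖ := by congr 1; ring
        _ ≤ 1 * _ := by rw [norm_mul]; gcongr
        _ ≤ _ := by rw [one_mul]; exact ih'
    · simp only [List.map_cons, List.prod_cons, List.sum_cons, if_neg ha]
      rw [List.filter_cons_of_pos (by simpa using ha), List.filter_cons_of_neg (by simpa using ha),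
        List.map_cons, List.prod_cons]
      have hb : ‖((L.filter fun a => ¬ pr a).map g0).prod * ((L.filter fun a => pr a).map g).prod‖
          ≤ 1 := by
        rw [norm_mul]
        have h1 := norm_list_prod_le (L.filter fun a => ¬ pr a) g0 fun b hb =>
          hg0 b (by simp [(List.mem_filter.1 hb).1])
        have h2 := norm_list_prod_le (L.filter fun a => pr a) g fun b hb =>
          hg b (by simp [(List.mem_filter.1 hb).1])
        calc _ ≤ (1 : ℝ) * 1 := by gcongr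
          _ = 1 := one_mul 1
      calc _ = ‖g a * ((L.map g).prod - ((L.filter fun a => ¬ pr a).map g0).prod *
              ((L.filter fun a => pr a).map g).prod) + (g a - g0 a) *
              (((L.filter fun a => ¬ pr a).map g0).prod * ((L.filter fun a => pr a).map g).prod)‖ := by
            congr 1; ring
        _ ≤ 1 * _ + ‖g a - g0 a‖ * 1 := by
            refine (norm_add_le _ _).trans ?_
            rw [norm_mul, norm_mul]
            gcongr
        _ ≤ _ := by rw [one_mul, mul_one, add_comm]; gcongr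

lemma expect_list_sum_le {ι : Type*} [Fintype ι] [Nonempty ι] {α : Type*} (L : List α)
    (g : α → ι → ℝ) (K : ℝ) (h : ∀ a ∈ L, 𝔼 x, g a x ≤ K) :
    𝔼 x, (L.map fun a => g a x).sum ≤ L.length * K := by
  induction L with
  | nil => simp
  | cons a L ih =>
    have ih' := ih fun b hb => h b (by simp [hb])
    have h1 := h a (by simp)
    simp only [List.map_cons, List.sum_cons, List.length_cons, Finset.expect_add_distrib]
    push_cast
    linarith

theorem lform_merge_of (hl1 : L1Shift) {m N : ℕ} [NeZero N] (S : Sys m) (c : Fin m → ℝ) (B E : ℝ)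
    (F0 : ZMod N → ℂ) (hF0 : ∀ x, ‖F0 x‖ ≤ 1)
    (L : List ((ZMod N → ℂ) × Phi m)) (hQ : 1 ≤ S.Q) (hL : ∀ fp ∈ L, Adm B S.Q fp.1)
    (pr : Phi m → Prop) [DecidablePred pr] (hE0 : 0 ≤ E)
    (hE : ∀ fp ∈ L, ¬ pr fp.2 → ∀ k ∈ S.I, |(ev (S.a c) fp.2 k : ℝ)| ≤ E) :
    ‖lform S c F0 L - lform S c
        (fun x => F0 x * ((L.filter (fun fp => ¬ pr fp.2)).map (fun fp => fp.1 x)).prod)
        (L.filter (fun fp => pr fp.2))‖ ≤ L.length * (E * B * (1 / S.Q + 1 / N)) := by
  have hN : (0 : ℝ) < N := by exact_mod_cast Nat.pos_of_ne_zero (NeZero.ne N)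
  have hQ' : (1 : ℝ) ≤ S.Q := by exact_mod_cast hQ
  have hB : ∀ fp ∈ L, 0 ≤ B := by
    intro fp hfp
    have := (hL fp hfp).tv 0 0
    simpa using this
  have hR : 0 ≤ L.length * (E * B * (1 / S.Q + 1 / N)) := by
    rcases L with _ | ⟨a, L⟩
    · simp
    · have := hB a (by simp)
      positivity
  unfold lform
  rw [← Finset.expect_sub_distrib]
  refine RCLike.norm_expect_le (K := ℂ).trans ?_
  rcases S.I.eq_empty_or_nonempty with hI | hI
  · rw [hI, Finset.expect_empty]; exact hR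
  refine Finset.expect_le hI fun k hk => ?_
  rw [← Finset.expect_sub_distrib]
  refine RCLike.norm_expect_le (K := ℂ).trans ?_
  refine le_trans (Finset.expect_le_expect fun x _ => ?_) (expect_list_sum_le L
    (fun fp x => if pr fp.2 then 0 else ‖fp.1 (x + (ev (S.a c) fp.2 k : ZMod N)) - fp.1 x‖)
    (E * B * (1 / S.Q + 1 / N)) ?_)
  · have h1 := telescope L (fun fp => pr fp.2) (fun fp => fp.1 (x + (ev (S.a c) fp.2 k : ZMod N)))
      (fun fp => fp.1 x) (fun fp hfp => (hL fp hfp).bdd _) (fun fp hfp => (hL fp hfp).bdd _)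
    refine le_trans (le_of_eq ?_) ((mul_le_of_le_one_left (norm_nonneg _) (hF0 x)).trans h1)
    rw [← norm_mul]
    congr 1
    ring
  · intro fp hfp
    by_cases hp : pr fp.2
    · simp only [if_pos hp, Finset.expect_const_zero]
      have := hB fp hfp
      positivity
    · simp only [if_neg hp]
      refine (hl1 (hL fp hfp).tv (by linarith) _).trans ?_
      have := hB fp hfp
      have := hE fp hfp hp k hk
      gcongr

end Pool.Agent.Helper84.NX
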